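import Pool.Agent.Results.MP_7f88e4_nt.PolynomialPairs
import Pool.Agent.Y854.GM.WinV

/-!
# The maps `3 x + g m` started at `f m`: windows without exceptions

Let `f` and `g ≠ 0` be polynomials with integer coefficients, `deg g < deg f`, and `ε > 0`. There is `δ > 0` such
that for every sequence `v ≥ 1` with exponent of convergence at most `τ` (for `v_n = n ^ a` this is `1 / a`, for
`v_n = b ^ n` it is `0`) and every `θ < 1` the following holds for all `α > 0` outside a set of Hausdorff dimension at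
most `(1 - δ + τ) / (1 - θ)` and all large `n`: for ALL integers `m` with `| |m| - α v_n | ≤ v_n ^ θ` and `g m` odd the
first `log_2 v_n` terms of the trajectory of `f m` under `T_{3, g m}` are `(√3 / 2) ^ j |f m|`, up to a factor
`v_n ^ ε`, and a term has absolute value at most `|f m| ^ (1 - (1 - log 3 / log 4) / deg f + ε)`.
-/

set_option autoImplicit false

open Filter Topology

namespace Pool.Agent.Results.MP_7f88e4_nt.AllPairsInWindows

open Polynomial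
open PolynomialPairs (T Follows)

/-- the exponent of convergence of the sequence `v` is at most `τ` -/
def ExpLe (v : ℕ → ℝ) (τ : ℝ) : Prop := ∀ t : ℝ, τ < t → Summable (fun n : ℕ => (v n) ^ (-t))

/-- the integers of absolute value at most `(A + 1) v` are covered by `4 A + 6` intervals of length `v` -/
theorem cover (P : ℤ → Prop) (v : ℝ) (hv : 1 ≤ v) (A : ℕ) (B : ℝ)
    (hB : ∀ X : ℤ, ({m : ℤ | X < m ∧ (m : ℝ) ≤ X + v ∧ P m}.ncard : ℝ) ≤ B) :
    {m : ℤ | P m ∧ |(m : ℝ)| ≤ ((A : ℝ) + 1) * v}.Finite ∧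
      ({m : ℤ | P m ∧ |(m : ℝ)| ≤ ((A : ℝ) + 1) * v}.ncard : ℝ) ≤ (4 * (A : ℝ) + 6) * B := by
  classical
  have hvp : 0 < v := by linarith
  set q : ℕ := ⌊v⌋₊ with hq
  have hq1 : 1 ≤ q := Nat.le_floor (by simpa using hv)
  have hqv : (q : ℝ) ≤ v := Nat.floor_le hvp.le
  have hvq : v < q + 1 := Nat.lt_floor_add_one v
  have hq1r : (1 : ℝ) ≤ q := by exact_mod_cast hq1
  have hfin : ∀ X : ℤ, {m : ℤ | X < m ∧ (m : ℝ) ≤ X + v ∧ P m}.Finite := by
    intro X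
    apply (Set.finite_Icc X (X + ⌈v⌉)).subset
    intro m hm
    refine ⟨hm.1.le, ?_⟩
    have h1 : (m : ℝ) ≤ ((X + ⌈v⌉ : ℤ) : ℝ) := by
      push_cast
      linarith [hm.2.1, Int.le_ceil v]
    exact_mod_cast h1
  set F : ℕ → Set ℤ := fun i => {m : ℤ | (((i : ℤ) - (2 * A + 3)) * q : ℤ) < m ∧
    (m : ℝ) ≤ ((((i : ℤ) - (2 * A + 3)) * q : ℤ) : ℝ) + v ∧ P m} with hF
  have hsub : {m : ℤ | P m ∧ |(m : ℝ)| ≤ ((A : ℝ) + 1) * v} ⊆ ⋃ i ∈ Finset.range (4 * A + 6), F i := by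
    intro m hm
    obtain ⟨hP, hm⟩ := hm
    rw [abs_le] at hm
    have hb : ((A : ℝ) + 1) * v < (2 * A + 3) * q := by
      have hA0 : (0 : ℝ) ≤ A := Nat.cast_nonneg A
      nlinarith
    have h1 : m < (2 * (A : ℤ) + 3) * q := by
      have : (m : ℝ) < (((2 * (A : ℤ) + 3) * q : ℤ) : ℝ) := by push_cast; linarith
      exact_mod_cast this
    have h2 : -((2 * (A : ℤ) + 3) * q) < m := by
      have : ((-((2 * (A : ℤ) + 3) * q) : ℤ) : ℝ) < m := by push_cast; linarith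
      exact_mod_cast this
    set u : ℤ := m + (2 * (A : ℤ) + 3) * q - 1 with hu
    have hqz : (0 : ℤ) < q := by exact_mod_cast hq1
    have hu0 : 0 ≤ u := by omega
    have hu1 : u < (4 * (A : ℤ) + 6) * q := by
      have : (4 * (A : ℤ) + 6) * q = (2 * (A : ℤ) + 3) * q + (2 * (A : ℤ) + 3) * q := by ring
      omega
    have hd0 : 0 ≤ u / q := Int.ediv_nonneg hu0 hqz.le
    have hd1 : u / q < 4 * (A : ℤ) + 6 := Int.ediv_lt_of_lt_mul hqz hu1
    obtain ⟨i, hi⟩ := Int.eq_ofNat_of_zero_le hd0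
    have hi1 : i < 4 * A + 6 := by
      have : (i : ℤ) < 4 * (A : ℤ) + 6 := by rw [← hi]; exact hd1
      exact_mod_cast this
    rw [Set.mem_iUnion₂]
    refine ⟨i, Finset.mem_range.2 hi1, ?_⟩
    have h3 : (q : ℤ) * (u / q) + u % q = u := Int.mul_ediv_add_emod u q
    have h4 : 0 ≤ u % q := Int.emod_nonneg u hqz.ne'
    have h5 : u % q < q := Int.emod_lt_of_pos u hqz
    rw [hi] at h3
    have h6 : ((i : ℤ) - (2 * A + 3)) * q = (q : ℤ) * i - (2 * (A : ℤ) + 3) * q := by ring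
    refine ⟨?_, ?_, hP⟩
    · rw [h6]
      have : ((i : ℤ)) = Int.ofNat i := rfl
      omega
    · have h7 : m ≤ ((i : ℤ) - (2 * A + 3)) * q + q := by
        rw [h6]
        have : ((i : ℤ)) = Int.ofNat i := rfl
        omega
      have h8 : (m : ℝ) ≤ (((((i : ℤ) - (2 * A + 3)) * q + q : ℤ)) : ℝ) := by exact_mod_cast h7
      rw [Int.cast_add] at h8
      have h9 : (((q : ℤ)) : ℝ) = (q : ℝ) := by norm_cast
      rw [h9] at h8
      linarith
  have hfinU : (⋃ i ∈ Finset.range (4 * A + 6), F i).Finite :=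
    Set.Finite.biUnion (Finset.finite_toSet _) (fun i _ => hfin _)
  refine ⟨hfinU.subset hsub, ?_⟩
  have h1 : ({m : ℤ | P m ∧ |(m : ℝ)| ≤ ((A : ℝ) + 1) * v}.ncard : ℝ) ≤
      ((∑ i ∈ Finset.range (4 * A + 6), (F i).ncard : ℕ) : ℝ) := by
    exact_mod_cast (Set.ncard_le_ncard hsub hfinU).trans (Finset.set_ncard_biUnion_le _ _)
  refine h1.trans ?_
  push_cast
  calc ∑ i ∈ Finset.range (4 * A + 6), ((F i).ncard : ℝ) ≤ ∑ _i ∈ Finset.range (4 * A + 6), B :=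
        Finset.sum_le_sum (fun i _ => hB _)
    _ = (4 * (A : ℝ) + 6) * B := by
        rw [Finset.sum_const, Finset.card_range, nsmul_eq_mul]
        push_cast
        ring

/-- Let `f`, `g ≠ 0` be polynomials with integer coefficients, `deg g < deg f`, and `ε > 0`. There is `δ > 0` such
that for every sequence `v ≥ 1` with exponent of convergence at most `τ` and every `θ < 1`, for all `α > 0` outside a
set of Hausdorff dimension at most `(1 - δ + τ) / (1 - θ)` and all large `n`, ALL integers `m` with `g m` odd and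
`| |m| - α v_n | ≤ v_n ^ θ` have the following properties: the first `log_2 v_n` terms of the trajectory of `f m` under
`T_{3, g m}` are `(√3 / 2) ^ j |f m|` up to a factor `v_n ^ ε`, and some term has absolute value at most
`|f m| ^ (1 - (1 - log 3 / log 4) / deg f + ε)`. -/
theorem result (f g : ℤ[X]) (hg : g ≠ 0) (hdeg : g.natDegree < f.natDegree) (ε : ℝ) (hε : 0 < ε) :
    ∃ δ : ℝ, 0 < δ ∧ ∀ (v : ℕ → ℝ) (τ θ : ℝ), (∀ n, 1 ≤ v n) → 0 ≤ τ → ExpLe v τ → θ < 1 →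
      ∃ E : Set ℝ, dimH E ≤ ENNReal.ofReal ((1 - δ + τ) / (1 - θ)) ∧
        ∀ α : ℝ, 0 < α → α ∉ E → ∃ n₀ : ℕ, ∀ n : ℕ, n₀ ≤ n → ∀ m : ℤ,
          |(|(m : ℝ)|) - α * v n| ≤ (v n) ^ θ → g.eval m % 2 = 1 →
            Follows (g.eval m) ε (v n) (f.eval m) ∧
            ∃ j : ℕ, |(((T (g.eval m))^[j] (f.eval m) : ℤ) : ℝ)| ≤
              |((f.eval m : ℤ) : ℝ)| ^ (1 - (1 - Real.log 3 / Real.log 4) / f.natDegree + ε) := by
  obtain ⟨⟨δ1, K1, hδ1, hK1, h1⟩, ⟨δ2, K2, hδ2, hK2, h2⟩⟩ := PolynomialPairs.result f g hg hdeg ε hε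
  set δ : ℝ := min 1 (min δ1 δ2) with hδ
  have hδ0 : 0 < δ := lt_min one_pos (lt_min hδ1 hδ2)
  have hδ11 : δ ≤ 1 := min_le_left _ _
  have hδ12 : δ ≤ δ1 := (min_le_right _ _).trans (min_le_left _ _)
  have hδ13 : δ ≤ δ2 := (min_le_right _ _).trans (min_le_right _ _)
  refine ⟨δ, hδ0, fun v τ θ hpos hτ hv hθ => ?_⟩
  set P1 : ℝ → ℤ → Prop := fun Y m => g.eval m % 2 = 1 ∧ ¬ Follows (g.eval m) ε Y (f.eval m) with hP1
  set P2 : ℤ → Prop := fun m => g.eval m % 2 = 1 ∧ ∀ j : ℕ,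
        |((f.eval m : ℤ) : ℝ)| ^ (1 - (1 - Real.log 3 / Real.log 4) / f.natDegree + ε) <
          |(((T (g.eval m))^[j] (f.eval m) : ℤ) : ℝ)| with hP2
  obtain ⟨E, hE1, hE2⟩ := Pool.Agent.Y854.GM.windowsV (T := ℤ) (fun n => {m : ℤ | P1 (v n) m ∨ P2 m})
    (fun _ m => |(m : ℝ)|) (v := v) (s := 1 - δ) (τ := τ) (θ := θ) 1 hpos hτ hv (by linarith) hθ (by
      intro A ε' hε'
      refine ⟨(4 * (A : ℝ) + 6) * K1 + K2 * ((A : ℝ) + 1), 0, fun n _ => ?_⟩
      have hvn := hpos n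
      have hvp : 0 < v n := by linarith
      have hA0 : (0 : ℝ) ≤ A := Nat.cast_nonneg A
      obtain ⟨c1, c2⟩ := cover (P1 (v n)) (v n) hvn A (K1 * (v n) ^ (1 - δ1)) (fun X => h1 X (v n) hvn)
      have hXA : 1 ≤ ((A : ℝ) + 1) * v n := by nlinarith
      have c3 : {m : ℤ | P2 m ∧ |(m : ℝ)| ≤ ((A : ℝ) + 1) * v n}.Finite := by
        apply (Set.finite_Icc (-⌈((A : ℝ) + 1) * v n⌉) ⌈((A : ℝ) + 1) * v n⌉).subset
        intro m hm
        have h3 := abs_le.1 hm.2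
        have h4 := Int.le_ceil (((A : ℝ) + 1) * v n)
        constructor
        · have : ((-⌈((A : ℝ) + 1) * v n⌉ : ℤ) : ℝ) ≤ m := by push_cast; linarith [h3.1]
          exact_mod_cast this
        · have : (m : ℝ) ≤ ((⌈((A : ℝ) + 1) * v n⌉ : ℤ) : ℝ) := by linarith [h3.2]
          exact_mod_cast this
      have c4 : ({m : ℤ | P2 m ∧ |(m : ℝ)| ≤ ((A : ℝ) + 1) * v n}.ncard : ℝ) ≤
          K2 * (((A : ℝ) + 1) * v n) ^ (1 - δ2) := by
        have h3 := h2 (((A : ℝ) + 1) * v n) hXA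
        have h4 : {m : ℤ | P2 m ∧ |(m : ℝ)| ≤ ((A : ℝ) + 1) * v n} =
            {n_1 : ℤ | |(n_1 : ℝ)| ≤ ((A : ℝ) + 1) * v n ∧ g.eval n_1 % 2 = 1 ∧ ∀ j : ℕ,
              |((f.eval n_1 : ℤ) : ℝ)| ^ (1 - (1 - Real.log 3 / Real.log 4) / f.natDegree + ε) <
              |(((T (g.eval n_1))^[j] (f.eval n_1) : ℤ) : ℝ)|} := by
          ext m
          simp only [hP2, Set.mem_ofPred_eq]
          tauto
        rw [h4]
        exact h3
      have hsub : {t : ℤ | t ∈ {m : ℤ | P1 (v n) m ∨ P2 m} ∧ |(t : ℝ)| ≤ ((A : ℝ) + 1) * v n} ⊆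
          {m : ℤ | P1 (v n) m ∧ |(m : ℝ)| ≤ ((A : ℝ) + 1) * v n} ∪
          {m : ℤ | P2 m ∧ |(m : ℝ)| ≤ ((A : ℝ) + 1) * v n} := by
        intro m hm
        obtain ⟨hm1, hm2⟩ := hm
        rcases hm1 with hm1 | hm1
        · exact Or.inl ⟨hm1, hm2⟩
        · exact Or.inr ⟨hm1, hm2⟩
      refine ⟨(c1.union c3).subset hsub, ?_⟩
      have h5 : ({t : ℤ | t ∈ {m : ℤ | P1 (v n) m ∨ P2 m} ∧ |(t : ℝ)| ≤ ((A : ℝ) + 1) * v n}.ncard : ℝ) ≤
          ({m : ℤ | P1 (v n) m ∧ |(m : ℝ)| ≤ ((A : ℝ) + 1) * v n}.ncard : ℝ) +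
          ({m : ℤ | P2 m ∧ |(m : ℝ)| ≤ ((A : ℝ) + 1) * v n}.ncard : ℝ) := by
        exact_mod_cast (Set.ncard_le_ncard hsub (c1.union c3)).trans (Set.ncard_union_le _ _)
      have e1 : (v n) ^ (1 - δ1) ≤ (v n) ^ (1 - δ + ε') :=
        Real.rpow_le_rpow_of_exponent_le hvn (by linarith)
      have e2 : (((A : ℝ) + 1) * v n) ^ (1 - δ2) ≤ ((A : ℝ) + 1) * (v n) ^ (1 - δ + ε') := by
        calc (((A : ℝ) + 1) * v n) ^ (1 - δ2) ≤ (((A : ℝ) + 1) * v n) ^ (1 - δ) :=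
              Real.rpow_le_rpow_of_exponent_le hXA (by linarith)
          _ = ((A : ℝ) + 1) ^ (1 - δ) * (v n) ^ (1 - δ) :=
              Real.mul_rpow (by positivity) hvp.le
          _ ≤ ((A : ℝ) + 1) ^ (1 : ℝ) * (v n) ^ (1 - δ + ε') := by
              gcongr
              · linarith
              · linarith
              · linarith
          _ = ((A : ℝ) + 1) * (v n) ^ (1 - δ + ε') := by rw [Real.rpow_one]
      calc _ ≤ _ := h5
        _ ≤ (4 * (A : ℝ) + 6) * (K1 * (v n) ^ (1 - δ1)) + K2 * (((A : ℝ) + 1) * v n) ^ (1 - δ2) :=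
            add_le_add c2 c4
        _ ≤ (4 * (A : ℝ) + 6) * (K1 * (v n) ^ (1 - δ + ε')) + K2 * (((A : ℝ) + 1) * (v n) ^ (1 - δ + ε')) := by
            gcongr
        _ = ((4 * (A : ℝ) + 6) * K1 + K2 * ((A : ℝ) + 1)) * (v n) ^ (1 - δ + ε') := by ring)
  refine ⟨E, hE1, fun α hα hαE => ?_⟩
  obtain ⟨n0, hn0⟩ := hE2 α hα hαE
  refine ⟨n0, fun n hn m hm hgm => ?_⟩
  have key : ¬ (P1 (v n) m ∨ P2 m) := by
    intro hbad
    have h3 := hn0 n hn m hbad
    rw [one_mul] at h3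
    exact absurd hm (not_le.2 h3)
  rw [not_or] at key
  obtain ⟨k1, k2⟩ := key
  constructor
  · by_contra hcon
    exact k1 ⟨hgm, hcon⟩
  · by_contra hcon
    push Not at hcon
    exact k2 ⟨hgm, hcon⟩

end Pool.Agent.Results.MP_7f88e4_nt.AllPairsInWindows
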