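import Pool.Agent.TH930.SP.Loc
import Pool.Agent.H107.SparseInt
import Pool.Agent.Y854.GM.WinV

/-!
# No cycles of the `3x+k` maps, for all `k ≤ v_m ^ δ` at once, and no elements of non-periodic orbits in the windows around
# the multiples of almost every number

**Theorem.** There is `η` with `0 < η < H`, `H = 0.94995...` the entropy exponent, such that for all sequences `v_m ≥ 1` with
exponent of convergence at most `τ` and all `θ < 1`:

1. (Q2) Let `δ ≥ 0`. For all `α > 0` outside of a set of Hausdorff dimension at most `(η + δ (2 - η) + τ) / (1 - θ)` and all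
large `m`, no integer `x` with `||x| - α v_m| ≤ v_m ^ θ` is on a cycle of one of the `3x+k` maps with `|k| ≤ v_m ^ δ`, `k` odd.

2. (Q1) For all real `α` outside of a set of Hausdorff dimension at most `(η + τ) / (1 - θ)`, ALL odd `k` and ALL orbits of
the `3x+k` map, for large `m` the orbit has no element in the window `|x - α v_m| ≤ v_m ^ θ`.

If `τ = 0`, for example `v_m = b ^ m`, and `θ`, `δ` are small, then these dimensions are smaller than one and almost all `α` have
the properties. The proof combines the bound of the library `Pool.Agent.TH930.SP.sparse_loc` (starting file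
`OrbitCountBelowEntropy`) for the number of elements of orbits and of all the periodic points in intervals with coverings.
-/

set_option autoImplicit false

namespace Pool.Agent.Results.MP_7f88e4_nt.CyclesInWindows

open Pool.Agent.V35.WM (ExpLe)

/-- The `3x+k` map on the integers. -/
def T (k : ℤ) (x : ℤ) : ℤ := if x % 2 = 0 then x / 2 else (3 * x + k) / 2

/-- The entropy exponent `0.94995...`. -/
noncomputable def H : ℝ := Real.binEntropy (Real.log 2 / Real.log 3) / Real.log 2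

/-- (1) cycles for all odd `k` with `|k| ≤ v_m ^ δ`, (2) all orbits for all odd `k`, (3) examples of exponents. -/
theorem result : ∃ η : ℝ, 0 < η ∧ η < H ∧
    (∀ (v : ℕ → ℝ) (τ θ δ : ℝ), (∀ m, 1 ≤ v m) → 0 ≤ τ → ExpLe v τ → θ < 1 → 0 ≤ δ →
      ∃ E : Set ℝ, dimH E ≤ ENNReal.ofReal ((η + δ * (2 - η) + τ) / (1 - θ)) ∧ ∀ α : ℝ, 0 < α → α ∉ E →
        ∃ m₀ : ℕ, ∀ m : ℕ, m₀ ≤ m → ∀ k : ℤ, k % 2 = 1 → |(k : ℝ)| ≤ (v m) ^ δ →
          ∀ x ∈ Function.periodicPts (T k), (v m) ^ θ < |(|(x : ℝ)|) - α * v m|) ∧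
    (∀ (v : ℕ → ℝ) (τ θ : ℝ), (∀ m, 1 ≤ v m) → 0 ≤ τ → ExpLe v τ → θ < 1 →
      ∃ E : Set ℝ, dimH E ≤ ENNReal.ofReal ((η + τ) / (1 - θ)) ∧ ∀ α ∉ E, ∀ k : ℤ, k % 2 = 1 → ∀ x : ℤ,
        ∃ m₀ : ℕ, ∀ m : ℕ, m₀ ≤ m → ∀ i : ℕ, (v m) ^ θ < |(((T k)^[i] x : ℤ) : ℝ) - α * v m|) ∧
    (∀ b : ℝ, 1 < b → ExpLe (fun m : ℕ => b ^ m) 0) ∧
    (∀ a : ℝ, 0 < a → ExpLe (fun m : ℕ => ((m : ℝ) + 1) ^ a) (1 / a)) := by
  classical
  obtain ⟨η, A, hη0, hη, hA, h⟩ := Pool.Agent.TH930.SP.sparse_loc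
  have hη0' : 0 < η := lt_trans (by norm_num) hη0
  have hη1 : η < 1 := lt_trans hη (lt_trans Pool.Agent.H319R2.beta_lt (by norm_num))
  refine ⟨η, hη0', hη, ?_, ?_, Pool.Agent.V35.WM.expLe_geom, Pool.Agent.V35.WM.expLe_pow⟩
  · intro v τ θ δ hv hτ hvτ hθ hδ
    -- the periodic points at the level `m`
    set S : ℕ → Set ℤ := fun m => {x : ℤ | ∃ k : ℤ, k % 2 = 1 ∧ |(k : ℝ)| ≤ (v m) ^ δ ∧
      x ∈ Function.periodicPts (T k)} with hS
    have hs : 0 ≤ η + δ * (2 - η) := by
      have : 0 ≤ δ * (2 - η) := mul_nonneg hδ (by linarith)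
      linarith
    have hvp : ∀ m, 0 < v m := fun m => lt_of_lt_of_le one_pos (hv m)
    obtain ⟨E, hE, hwin⟩ := Pool.Agent.Y854.GM.windowsV (T := ℤ) S (fun _ x => |(x : ℝ)|) (v := v) (s := η + δ * (2 - η))
      (τ := τ) (θ := θ) 1 hv hτ hvτ hs hθ (by
        intro B ε hε
        refine ⟨3 * A * (((B : ℝ) + 1) ^ η), 0, fun m _ => ?_⟩
        have hR : 1 ≤ ((B : ℝ) + 1) * v m := by
          have hB : (0 : ℝ) ≤ B := Nat.cast_nonneg _
          nlinarith [hv m]
        have hfin := Pool.Agent.H107.SI.ball_finite (S m) (((B : ℝ) + 1) * v m)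
        refine ⟨hfin, ?_⟩
        -- the numbers `k`
        have hvδ : 1 ≤ (v m) ^ δ := Real.one_le_rpow (hv m) hδ
        set KK : Finset ℤ := Finset.Icc (-⌊(v m) ^ δ⌋) ⌊(v m) ^ δ⌋ with hKK
        have hKcard : (KK.card : ℝ) ≤ 3 * (v m) ^ δ := by
          rw [hKK, Int.card_Icc]
          have h1 : (⌊(v m) ^ δ⌋ : ℝ) ≤ (v m) ^ δ := Int.floor_le _
          have h2 : (0 : ℤ) ≤ ⌊(v m) ^ δ⌋ := Int.floor_nonneg.2 (by linarith)
          have h3 : (((⌊(v m) ^ δ⌋ + 1 - -⌊(v m) ^ δ⌋).toNat : ℕ) : ℤ) = ⌊(v m) ^ δ⌋ + 1 - -⌊(v m) ^ δ⌋ :=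
            Int.toNat_of_nonneg (by omega)
          have h4 : (((⌊(v m) ^ δ⌋ + 1 - -⌊(v m) ^ δ⌋).toNat : ℕ) : ℝ) = (⌊(v m) ^ δ⌋ : ℝ) + 1 - -(⌊(v m) ^ δ⌋ : ℝ) := by
            have := congrArg (fun z : ℤ => (z : ℝ)) h3
            push_cast at this ⊢
            exact this
          rw [h4]
          linarith
        set F : ℤ → Finset ℤ := fun k => if k % 2 = 1 then
          ((Pool.Agent.H107.SI.ball_finite (Function.periodicPts (T k)) (((B : ℝ) + 1) * v m)).toFinset) else ∅ with hF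
        have hsub : {t : ℤ | t ∈ S m ∧ |(t : ℝ)| ≤ ((B : ℝ) + 1) * v m} ⊆ ((KK.biUnion F : Finset ℤ) : Set ℤ) := by
          rintro x ⟨⟨k, hk1, hk2, hk3⟩, hx⟩
          rw [Finset.mem_coe, Finset.mem_biUnion]
          refine ⟨k, ?_, ?_⟩
          · rw [hKK, Finset.mem_Icc]
            obtain ⟨a1, a2⟩ := abs_le.1 hk2
            constructor
            · have : -k ≤ ⌊(v m) ^ δ⌋ := Int.le_floor.2 (by push_cast; linarith)
              omega
            · exact Int.le_floor.2 a2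
          · simp only [hF]
            rw [if_pos hk1, Set.Finite.mem_toFinset]
            exact ⟨hk3, hx⟩
        have hcard : (({t : ℤ | t ∈ S m ∧ |(t : ℝ)| ≤ ((B : ℝ) + 1) * v m}.ncard : ℕ) : ℝ) ≤
            ((KK.biUnion F).card : ℝ) := by
          have := Set.ncard_le_ncard hsub (Finset.finite_toSet _)
          rw [Set.ncard_coe_finset] at this
          exact_mod_cast this
        refine hcard.trans ?_
        have hFk : ∀ k ∈ KK, ((F k).card : ℝ) ≤ A * ((v m) ^ δ) ^ (1 - η) * (((B : ℝ) + 1) * v m) ^ η := by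
          intro k hk
          simp only [hF]
          split_ifs with hk1
          · have hk2 : |(k : ℝ)| ≤ (v m) ^ δ := by
              rw [hKK, Finset.mem_Icc] at hk
              have h1 : (⌊(v m) ^ δ⌋ : ℝ) ≤ (v m) ^ δ := Int.floor_le _
              have h2 : ((-⌊(v m) ^ δ⌋ : ℤ) : ℝ) ≤ (k : ℝ) := by exact_mod_cast hk.1
              have h3 : (k : ℝ) ≤ (⌊(v m) ^ δ⌋ : ℝ) := by exact_mod_cast hk.2
              push_cast at h2
              exact abs_le.2 ⟨by linarith, by linarith⟩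
            have h1 := h k (Int.odd_iff.2 hk1) (Function.periodicPts (T k)) (Pool.Agent.H319R2.G.tame_periodic (T k)) 0
              (((B : ℝ) + 1) * v m) hR
              ((Pool.Agent.H107.SI.ball_finite (Function.periodicPts (T k)) (((B : ℝ) + 1) * v m)).toFinset) (by
                intro x hx
                rw [Set.Finite.mem_toFinset] at hx
                rw [sub_zero]
                exact hx)
            refine h1.trans ?_
            have h2 : |(k : ℝ)| ^ (1 - η) ≤ ((v m) ^ δ) ^ (1 - η) :=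
              Real.rpow_le_rpow (abs_nonneg _) hk2 (by linarith)
            have h3 : (0 : ℝ) ≤ (((B : ℝ) + 1) * v m) ^ η := by positivity
            exact mul_le_mul_of_nonneg_right (mul_le_mul_of_nonneg_left h2 hA.le) h3
          · rw [Finset.card_empty, Nat.cast_zero]
            have := hvp m
            positivity
        have hsum : ((KK.biUnion F).card : ℝ) ≤ KK.card * (A * ((v m) ^ δ) ^ (1 - η) * (((B : ℝ) + 1) * v m) ^ η) := by
          have h1 : ((KK.biUnion F).card : ℝ) ≤ ∑ k ∈ KK, ((F k).card : ℝ) := by exact_mod_cast Finset.card_biUnion_le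
          refine h1.trans ((Finset.sum_le_sum hFk).trans (le_of_eq ?_))
          rw [Finset.sum_const, nsmul_eq_mul]
        refine hsum.trans ?_
        have hpos : 0 ≤ A * ((v m) ^ δ) ^ (1 - η) * (((B : ℝ) + 1) * v m) ^ η := by
          have := hvp m
          positivity
        refine (mul_le_mul_of_nonneg_right hKcard hpos).trans ?_
        have hvm := hvp m
        have e1 : ((v m) ^ δ) ^ (1 - η) = (v m) ^ (δ * (1 - η)) := by rw [← Real.rpow_mul hvm.le]
        have e2 : (((B : ℝ) + 1) * v m) ^ η = ((B : ℝ) + 1) ^ η * (v m) ^ η := by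
          rw [Real.mul_rpow (by positivity) hvm.le]
        calc 3 * (v m) ^ δ * (A * ((v m) ^ δ) ^ (1 - η) * (((B : ℝ) + 1) * v m) ^ η)
            = 3 * A * (((B : ℝ) + 1) ^ η) * ((v m) ^ δ * (v m) ^ (δ * (1 - η)) * (v m) ^ η) := by
              rw [e1, e2]
              ring
          _ = 3 * A * (((B : ℝ) + 1) ^ η) * (v m) ^ (η + δ * (2 - η)) := by
              rw [← Real.rpow_add hvm, ← Real.rpow_add hvm]
              congr 2
              ring
          _ ≤ 3 * A * (((B : ℝ) + 1) ^ η) * (v m) ^ (η + δ * (2 - η) + ε) := by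
              refine mul_le_mul_of_nonneg_left ?_ (by positivity)
              exact Real.rpow_le_rpow_of_exponent_le (hv m) (by linarith))
    refine ⟨E, hE, fun α hα hαE => ?_⟩
    obtain ⟨m₀, hm₀⟩ := hwin α hα hαE
    refine ⟨m₀, fun m hm k hk hkv x hx => ?_⟩
    have := hm₀ m hm x ⟨k, hk, hkv, hx⟩
    rwa [one_mul] at this
  · intro v τ θ hv hτ hvτ hθ
    have hsp : ∀ j : {k : ℤ // k % 2 = 1} × ℤ,
        Pool.Agent.H107.SI.Sparse {z : ℤ | ∃ i : ℕ, (T j.1.1)^[i] j.2 = z} η := by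
      rintro ⟨⟨k, hk⟩, x⟩
      refine ⟨A * |(k : ℝ)| ^ (1 - η), fun R hR F hF => ?_⟩
      obtain ⟨r, hinj, hr⟩ := Pool.Agent.H319R2.G.finite_subset_path (T k) x F (fun z hz => (hF z hz).1)
      apply h k (Int.odd_iff.2 hk) _ (Pool.Agent.H319R2.G.tame_path (T k) x r hinj) 0 R hR
      intro z hz
      obtain ⟨i, hi, he⟩ := hr z hz
      refine ⟨⟨i, hi, he⟩, ?_⟩
      rw [sub_zero]
      exact (hF z hz).2
    obtain ⟨E, h1, h2⟩ := Pool.Agent.H107.SI.win (J := {k : ℤ // k % 2 = 1} × ℤ) _ hη0'.le hsp hv hτ hvτ hθ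
    refine ⟨E, h1, fun α hα k hk x => ?_⟩
    obtain ⟨m₀, hm₀⟩ := h2 α hα (⟨k, hk⟩, x)
    exact ⟨m₀, fun m hm i => hm₀ m hm _ ⟨i, rfl⟩⟩

end Pool.Agent.Results.MP_7f88e4_nt.CyclesInWindows
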