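import Pool.Agent.Results.MP_7f88e4_nt.PolynomialPairs
import Pool.Agent.V11001.KM.Near

/-!
# Descent of the orbits of the `3x + k` maps near the powers of almost every real number

Let `ν n / log n → ∞`, for example `ν n = n`. For almost every real `z > 1`, for all polynomials `f`, `g ≠ 0` with integer
coefficients and `deg g < deg f` (for example `f = X`, `g` an odd constant `k`) and all `ε > 0` there is `θ > 0` such that
for all integers `m` with `g(m)` odd and `||m| - β z ^ (ν n)| ≤ z ^ (θ ν n)` for some `n`, with finitely many exceptions,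
the orbit of `f(m)` under the map `T_{3, g(m)}` has a term of absolute value at most
`|f(m)| ^ (1 - (1 - log 3 / log 4) / deg f + ε)`.
-/

set_option autoImplicit false

open Filter Topology MeasureTheory Polynomial

namespace Pool.Agent.Results.MP_7f88e4_nt.PairsNearPowers

open PolynomialPairs (T)
open Pool.Agent.V11001.KM

/-- the `m` with `g(m)` odd for which no term of the orbit of `f(m)` under `T_{3, g(m)}` has absolute value at most
`|f(m)| ^ (1 - (1 - log 3 / log 4) / deg f + ε)` -/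
def NoDescent (f g : ℤ[X]) (ε : ℝ) : Set ℤ :=
  {m | g.eval m % 2 = 1 ∧ ∀ j : ℕ,
    |((f.eval m : ℤ) : ℝ)| ^ (1 - (1 - Real.log 3 / Real.log 4) / f.natDegree + ε) <
      |(((T (g.eval m))^[j] (f.eval m) : ℤ) : ℝ)|}

theorem countable_poly : Countable ℤ[X] :=
  Cardinal.mk_le_aleph0_iff.1 (Polynomial.cardinalMk_le_max.trans (by simp))

lemma fin_box (P : ℤ → Prop) (X : ℝ) : {n : ℤ | P n ∧ |(n : ℝ)| ≤ X}.Finite := by
  refine (Set.finite_Icc (-⌈X⌉) ⌈X⌉).subset ?_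
  rintro n ⟨-, hn⟩
  obtain ⟨h1, h2⟩ := abs_le.1 hn
  have h3 := Int.le_ceil X
  constructor
  · have : (-(⌈X⌉ : ℤ) : ℝ) ≤ n := by linarith
    exact_mod_cast this
  · have : (n : ℝ) ≤ (⌈X⌉ : ℤ) := by linarith
    exact_mod_cast this

/-- the number of exceptions -/
lemma count (f g : ℤ[X]) (hg : g ≠ 0) (hdeg : g.natDegree < f.natDegree) (ε : ℝ) (hε : 0 < ε) :
    ∃ s K : ℝ, 0 ≤ s ∧ s < 1 ∧ 0 < K ∧ ∀ X : ℝ, 1 ≤ X →
      ({m : ℤ | m ∈ NoDescent f g ε ∧ |(m : ℝ)| ≤ X}.ncard : ℝ) ≤ K * X ^ s := by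
  obtain ⟨-, ⟨δ, K, hδ, hK, h⟩⟩ := PolynomialPairs.result f g hg hdeg ε hε
  refine ⟨1 - min δ 1, K, by linarith [min_le_right δ 1], by linarith [lt_min hδ one_pos], hK, fun X hX => ?_⟩
  have heq : {m : ℤ | m ∈ NoDescent f g ε ∧ |(m : ℝ)| ≤ X} =
      {n : ℤ | |(n : ℝ)| ≤ X ∧ g.eval n % 2 = 1 ∧ ∀ j : ℕ,
        |((f.eval n : ℤ) : ℝ)| ^ (1 - (1 - Real.log 3 / Real.log 4) / f.natDegree + ε) <
          |(((T (g.eval n))^[j] (f.eval n) : ℤ) : ℝ)|} := by
    ext m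
    constructor
    · rintro ⟨g1, g2⟩
      exact ⟨g2, g1⟩
    · rintro ⟨g2, g1⟩
      exact ⟨g1, g2⟩
  rw [heq]
  refine (h X hX).trans ?_
  apply mul_le_mul_of_nonneg_left _ hK.le
  exact Real.rpow_le_rpow_of_exponent_le hX (by linarith [min_le_left δ 1])

lemma count' {f g : ℤ[X]} {ε s K : ℝ} (hK : 0 < K)
    (h : ∀ X : ℝ, 1 ≤ X → ({m : ℤ | m ∈ NoDescent f g ε ∧ |(m : ℝ)| ≤ X}.ncard : ℝ) ≤ K * X ^ s) (η : ℝ)
    (hη : 0 < η) : ∃ C : ℝ, ∀ X : ℝ, 1 ≤ X → {m : ℤ | m ∈ NoDescent f g ε ∧ |(m : ℝ)| ≤ X}.Finite ∧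
      ({m : ℤ | m ∈ NoDescent f g ε ∧ |(m : ℝ)| ≤ X}.ncard : ℝ) ≤ C * X ^ (s + η) :=
  ⟨K, fun X hX => ⟨fin_box _ X, (h X hX).trans (mul_le_mul_of_nonneg_left
    (Real.rpow_le_rpow_of_exponent_le hX (by linarith)) hK.le)⟩⟩

/-- for values different from zero the exponent can be increased -/
lemma mono {f g : ℤ[X]} {ε ε' : ℝ} (h : ε ≤ ε') : {m | m ∈ NoDescent f g ε' ∧ f.eval m ≠ 0} ⊆ NoDescent f g ε := by
  rintro m ⟨⟨h1, h2⟩, h3⟩
  refine ⟨h1, fun j => lt_of_le_of_lt ?_ (h2 j)⟩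
  apply Real.rpow_le_rpow_of_exponent_le
  · have : (1 : ℤ) ≤ |f.eval m| := Int.one_le_abs h3
    exact_mod_cast this
  · linarith

/-- **Descent near the powers of almost every real number.** Let `ν n / log n → ∞` and let `B` be a countable set of real
numbers.
(1) For all polynomials `f`, `g ≠ 0` with integer coefficients, `deg g < deg f`, and all `ε > 0` there is `s < 1` such
that for every `θ < 1` there is a set `N` of Hausdorff dimension at most `s / (1 - θ)` with: for all `z > 1` outside `N` and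
all positive `β` in `B` only finitely many `m` with `||m| - β z ^ (ν n)| ≤ z ^ (θ ν n)` for some `n` are in
`NoDescent f g ε`.
(2) For almost every `z > 1`, for all such `f`, `g` and all `ε > 0` there is `θ > 0` such that for all positive `β` in `B`
only finitely many such `m` are in `NoDescent f g ε`. -/
theorem result (ν : ℕ → ℝ) (hν : Fast ν) (B : Set ℝ) (hB : B.Countable) :
    (∀ f g : ℤ[X], g ≠ 0 → g.natDegree < f.natDegree → ∀ ε : ℝ, 0 < ε → ∃ s : ℝ, 0 ≤ s ∧ s < 1 ∧ ∀ θ : ℝ, θ < 1 →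
      ∃ N : Set ℝ, dimH N ≤ ENNReal.ofReal (s / (1 - θ)) ∧ ∀ z : ℝ, 1 < z → z ∉ N → ∀ β ∈ B, 0 < β →
        {m : ℤ | m ∈ NoDescent f g ε ∧ Near ν θ β z |(m : ℝ)|}.Finite) ∧
    (∀ᵐ z : ℝ, 1 < z → ∀ f g : ℤ[X], g ≠ 0 → g.natDegree < f.natDegree → ∀ ε : ℝ, 0 < ε → ∃ θ : ℝ, 0 < θ ∧
      ∀ β ∈ B, 0 < β → {m : ℤ | m ∈ NoDescent f g ε ∧ Near ν θ β z |(m : ℝ)|}.Finite) := by
  have hP := countable_poly
  refine ⟨fun f g hg hdeg ε hε => ?_, ?_⟩
  · obtain ⟨s, K, hs0, hs1, hK, h⟩ := count f g hg hdeg ε hε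
    refine ⟨s, hs0, hs1, fun θ hθ => ?_⟩
    obtain ⟨N, h1, h2⟩ := family (fun n : ℤ => |(n : ℝ)|) hν hs0 hθ B hB (J := Unit)
      (fun _ => NoDescent f g ε) (fun _ η hη => count' hK h η hη)
    exact ⟨N, h1, fun z hz hzN β hβ hβ0 => h2 z hz hzN β hβ hβ0 ()⟩
  · have hall : ∀ (f g : ℤ[X]) (j : ℕ), ∀ᵐ z : ℝ, 1 < z → g ≠ 0 → g.natDegree < f.natDegree → ∃ θ : ℝ, 0 < θ ∧
        ∀ β ∈ B, 0 < β → {m : ℤ | m ∈ NoDescent f g (1 / ((j : ℝ) + 1)) ∧ Near ν θ β z |(m : ℝ)|}.Finite := by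
      intro f g j
      by_cases hg : g ≠ 0
      · by_cases hdeg : g.natDegree < f.natDegree
        · obtain ⟨s, K, hs0, hs1, hK, h⟩ := count f g hg hdeg (1 / ((j : ℝ) + 1)) (by positivity)
          filter_upwards [ae_family (fun n : ℤ => |(n : ℝ)|) hν hs0 B hB (J := Unit)
            (fun _ => NoDescent f g (1 / ((j : ℝ) + 1))) (fun _ η hη => count' hK h η hη)] with z hz hz1 _ _
          exact ⟨(1 - s) / 2, by linarith, fun β hβ hβ0 => hz hz1 _ (by linarith) β hβ hβ0 ()⟩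
        · exact Filter.Eventually.of_forall fun z _ _ h => absurd h hdeg
      · exact Filter.Eventually.of_forall fun z _ h => absurd h hg
    simp only [← MeasureTheory.ae_all_iff] at hall
    filter_upwards [hall] with z hz hz1 f g hg hdeg ε hε
    obtain ⟨j, hj⟩ := exists_nat_one_div_lt hε
    obtain ⟨θ, hθ, h⟩ := hz f g j hz1 hg hdeg
    have hf0 : f ≠ 0 := by
      rintro rfl
      simp at hdeg
    refine ⟨θ, hθ, fun β hβ hβ0 => ((h β hβ hβ0).union (Polynomial.rootSet_finite f ℤ)).subset ?_⟩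
    rintro n ⟨g1, g2⟩
    by_cases hn : f.eval n = 0
    · right
      rw [Polynomial.mem_rootSet]
      exact ⟨hf0, by simpa [Polynomial.aeval_def] using hn⟩
    · left
      exact ⟨mono hj.le ⟨g1, hn⟩, g2⟩

end Pool.Agent.Results.MP_7f88e4_nt.PairsNearPowers
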