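import Pool.Agent.V11201.SH.G4
import Pool.Agent.V11201.SH.M3
import Pool.Agent.H499R2.NDCor3
import Pool.Agent.H499R2.CO.R6

set_option autoImplicit false

/-! The fates of the orbits of the `3x+k` maps in short progressions `x + k, x + 2k, ..., x + Hk`. -/

namespace Pool.Agent.Results.MP_7f88e4_nt.SolidFates

open Filter Topology

/-- the `3x+k` map on the integers -/
def T (k x : ℤ) : ℤ := if x % 2 = 0 then x / 2 else (3 * x + k) / 2

/-- `c` lies on a cycle of `T_{3,k}` -/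
def Periodic (k c : ℤ) : Prop := ∃ p : ℕ, 1 ≤ p ∧ (T k)^[p] c = c

/-- the orbit of `n` is eventually periodic -/
def EvPer (k n : ℤ) : Prop := ∃ m p : ℕ, 1 ≤ p ∧ (T k)^[m + p] n = (T k)^[m] n

/-- the integers whose orbit passes through `c` -/
def Basin (k c : ℤ) : Set ℤ := {n | ∃ j : ℕ, (T k)^[j] n = c}

/-- the orbit of `n` is unbounded -/
def Unbounded (k n : ℤ) : Prop := ∀ M : ℤ, ∃ j : ℕ, M < |(T k)^[j] n|

/-- the orbits of `x` and `y` end in the same cycle, or both are unbounded -/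
def SameFate (k x y : ℤ) : Prop :=
  (∀ c, Periodic k c → (x ∈ Basin k c ↔ y ∈ Basin k c)) ∧ (Unbounded k x ↔ Unbounded k y)

/-- the number of the `1 ≤ j ≤ H` for which `x + k j` has another fate than `x` -/
noncomputable def strays (k x : ℤ) (H : ℕ) : ℕ :=
  {j : ℕ | 1 ≤ j ∧ j ≤ H ∧ ¬ SameFate k x (x + k * j)}.ncard

/-- the number of the `1 ≤ j ≤ H` with `x + k j` in `R` -/
noncomputable def inside (k : ℤ) (R : Set ℤ) (x : ℤ) (H : ℕ) : ℕ :=
  {j : ℕ | 1 ≤ j ∧ j ≤ H ∧ x + k * j ∈ R}.ncard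

/-- the positive integers with the property `P` have the natural density `δ` -/
def HasDensity (P : ℕ → Prop) (δ : ℝ) : Prop :=
  Tendsto (fun N : ℕ => ({n : ℕ | 1 ≤ n ∧ n ≤ N ∧ P n}.ncard : ℝ) / N) atTop (𝓝 δ)

/-- `g n = n ^ o(1)`: `log (1 + g n) / log n` tends to `0` -/
def SubPower (g : ℕ → ℕ) : Prop := Tendsto (fun n : ℕ => Real.log (1 + g n) / Real.log n) atTop (𝓝 0)

/-- For every `ε > 0` there is `c > 0` such that for all `θ > 0` and infinitely many `N`: for all but `ε N`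
of the `n ≤ N` at least `c H` of the integers `s n + k, s n + 2 k, ..., s n + H k` are in `S`,
`H = ⌊N ^ θ⌋`. -/
def Spread (k s : ℤ) (S : Set ℤ) : Prop :=
  ∀ ε : ℝ, 0 < ε → ∃ c : ℝ, 0 < c ∧ ∀ θ : ℝ, 0 < θ → ∃ᶠ N : ℕ in atTop,
    ({n : ℕ | 1 ≤ n ∧ n ≤ N ∧ (({j : ℕ | 1 ≤ j ∧ j ≤ ⌊(N : ℝ) ^ θ⌋₊ ∧ s * (n : ℤ) + k * j ∈ S}.ncard : ℕ) : ℝ) <
      c * ⌊(N : ℝ) ^ θ⌋₊}.ncard : ℝ) ≤ ε * N

theorem per_mul {k c : ℤ} {p : ℕ} (h : (T k)^[p] c = c) (m : ℕ) : (T k)^[m * p] c = c := by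
  induction m with
  | zero => simp
  | succ m ih => rw [Nat.succ_mul, Function.iterate_add_apply, h, ih]

theorem basin_merge {k x y c : ℤ} (hc : Periodic k c) {t : ℕ} (h : (T k)^[t] x = (T k)^[t] y)
    (hx : x ∈ Basin k c) : y ∈ Basin k c := by
  obtain ⟨p, hp, hpc⟩ := hc
  obtain ⟨j, hj⟩ := hx
  refine ⟨t * p + j, ?_⟩
  have h1 : (T k)^[t * p + j] x = c := by
    rw [Function.iterate_add_apply, hj, per_mul hpc]
  obtain ⟨m, hm⟩ : ∃ m, t * p + j = m + t :=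
    ⟨t * p + j - t, by have : t * 1 ≤ t * p := Nat.mul_le_mul_left t hp; omega⟩
  rw [hm, Function.iterate_add_apply] at h1 ⊢
  rw [← h]; exact h1

theorem evper_merge {k x y : ℤ} {t : ℕ} (h : (T k)^[t] x = (T k)^[t] y) (hx : EvPer k x) : EvPer k y := by
  obtain ⟨m, p, hp, h1⟩ := hx
  refine ⟨m + t, p, hp, ?_⟩
  have h2 : (T k)^[t] ((T k)^[m + p] x) = (T k)^[t] ((T k)^[m] x) := by rw [h1]
  rw [← Function.iterate_add_apply, ← Function.iterate_add_apply] at h2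
  have e1 : m + t + p = (m + p) + t := by ring
  rw [e1, Function.iterate_add_apply, Function.iterate_add_apply (T k) m t, ← h,
    ← Function.iterate_add_apply, ← Function.iterate_add_apply, Nat.add_comm (m + p) t, Nat.add_comm m t]
  exact h2

theorem unb_iff (k n : ℤ) : Unbounded k n ↔ ¬ EvPer k n := Pool.Agent.H499R2.ND.unbounded_iff (T k) n

theorem fate_merge {k x y : ℤ} {t : ℕ} (h : (T k)^[t] x = (T k)^[t] y) : SameFate k x y := by
  refine ⟨fun c hc => ⟨basin_merge hc h, basin_merge hc h.symm⟩, ?_⟩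
  rw [unb_iff, unb_iff]
  exact not_congr ⟨evper_merge h, evper_merge h.symm⟩

theorem inv_merge {k x y : ℤ} {R : Set ℤ} (hR : ∀ x, x ∈ R ↔ T k x ∈ R) {t : ℕ}
    (h : (T k)^[t] x = (T k)^[t] y) : x ∈ R ↔ y ∈ R := by
  have key : ∀ (t : ℕ) (x : ℤ), x ∈ R ↔ (T k)^[t] x ∈ R := by
    intro t
    induction t with
    | zero => intro x; rfl
    | succ t ih => intro x; rw [Function.iterate_succ_apply, ← ih, ← hR]
  rw [key t x, h, ← key t y]

theorem strays_le {k : ℤ} (N : ℕ) (x : ℤ) (H : ℕ) :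
    strays k x H ≤ Pool.Agent.V11201.SH.apart k N x H := by
  unfold strays Pool.Agent.V11201.SH.apart
  apply Set.ncard_le_ncard
  · rintro j ⟨h1, h2, h3⟩
    refine ⟨h1, h2, fun h4 => h3 ?_⟩
    obtain ⟨t, _, ht⟩ := h4
    exact fate_merge ht
  · exact Pool.Agent.V11201.SH.fin_le _ H

theorem strays_le' {k : ℤ} (x : ℤ) (H : ℕ) :
    strays k x H ≤ Pool.Agent.V11201.SH.nomeet k x H := by
  unfold strays Pool.Agent.V11201.SH.nomeet
  apply Set.ncard_le_ncard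
  · rintro j ⟨h1, h2, h3⟩
    refine ⟨h1, h2, fun h4 => h3 ?_⟩
    obtain ⟨t, ht⟩ := h4
    exact fate_merge ht
  · exact Pool.Agent.V11201.SH.fin_le _ H

/-- densities of invariant sets -/
theorem dens_inv {k : ℤ} (hk : k % 6 = 1 ∨ k % 6 = 5) {s : ℤ} (hs : s = 1 ∨ s = -1) {R : Set ℤ}
    (hR : ∀ x, x ∈ R ↔ T k x ∈ R) : ∃ ρ : ℝ, 0 ≤ ρ ∧ ρ ≤ 1 ∧ HasDensity (fun n => s * (n : ℤ) ∈ R) ρ ∧
      ((∃ a ∈ R, 0 < s * a ∧ ¬ (3 : ℤ) ∣ a) → 0 < ρ) := by
  have hodd : Odd k := Int.odd_iff.2 (by omega)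
  have h3 : ¬ (3 : ℤ) ∣ k := by omega
  have hinv : Pool.Agent.H499R2.ND.Inv k R := hR
  obtain ⟨l, hl0, hl1, hl⟩ := Pool.Agent.H499R2.ND.dens_side hodd
    (Pool.Agent.H499R2.ND.cop_of_not_dvd h3) hs hinv
  refine ⟨l, hl0, hl1, ?_, ?_⟩
  · refine (Pool.Agent.H499R2.ND.HD_ncard hs hl).congr fun N => ?_
    rw [Pool.Agent.H499R2.CO.side_ncard hs]
  · rintro ⟨a, ha, hsa, ha3⟩
    exact Pool.Agent.H499R2.ND.class_pos hodd h3 hs hinv ha hsa ha3 hl

open Pool.Agent.V11201.SH in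
/-- SOLID FATES. For all odd `k` and both signs `s`:
(1) for at most `(A / κ) √((1 + log (1 + H)) log log N / log N) N` of the `n ≤ N` more than `κ H` of the
integers `x + k, ..., x + H k`, `x = s n`, have another fate than `x`; `A` does not depend on `k`;
(2) for every `ε > 0` there are `θ > 0` and `N₀`, independent of `k`, such that for `N ≥ N₀` and
`H ≤ N ^ θ` at most `ε H` of them have another fate, for all but `ε N` of the `n ≤ N`.
Let moreover `k` be prime to `3`.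
(3) For every `ε > 0` there are `θ > 0` and `N₀` such that for `N ≥ N₀`, for all but `ε N` of the `n ≤ N` and
ALL `1 ≤ H ≤ N ^ θ`, at most `ε H` of `x + k, ..., x + H k` have another fate than `x`.
(4) Let `R` be a set with `x ∈ R` if and only if `T x ∈ R`, and `ρ` its density on the side `s`. For almost
all members `x = s n` of `R`, all but `ε H` of `x + k, ..., x + H k` are in `R` for all `H ≤ g n` at once,
and almost none for almost all nonmembers, if `g n = n ^ o(1)`.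
(5) Let `S` be spread on both sides. Every nonzero cycle is reached by the orbit of an element of `S`. If all
the orbits which begin in `S` are eventually periodic, then all orbits are. If the orbits which begin in `S`
reach only finitely many cycles, then there are only finitely many cycles. -/
theorem result :
    (∃ A : ℝ, 0 < A ∧ ∀ k : ℤ, Odd k → ∀ s : ℤ, s = 1 ∨ s = -1 → ∀ N : ℕ, 16 ≤ N → ∀ (H : ℕ) (κ : ℝ), 0 < κ →
      ({n : ℕ | 1 ≤ n ∧ n ≤ N ∧ κ * H < strays k (s * n) H}.ncard : ℝ) ≤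
        A / κ * √ ((1 + Real.log (1 + H)) * (Real.log (Real.log N) / Real.log N)) * N) ∧
    (∀ ε : ℝ, 0 < ε → ∃ θ : ℝ, 0 < θ ∧ ∃ N₀ : ℕ, ∀ N ≥ N₀, ∀ k : ℤ, Odd k → ∀ s : ℤ, s = 1 ∨ s = -1 →
      ∀ H : ℕ, (H : ℝ) ≤ (N : ℝ) ^ θ →
        ({n : ℕ | 1 ≤ n ∧ n ≤ N ∧ ε * H < strays k (s * n) H}.ncard : ℝ) ≤ ε * N) ∧
    (∀ k : ℤ, k % 6 = 1 ∨ k % 6 = 5 → ∀ s : ℤ, s = 1 ∨ s = -1 → ∀ ε : ℝ, 0 < ε →
      ∃ θ : ℝ, 0 < θ ∧ ∃ N₀ : ℕ, ∀ N ≥ N₀, ({n : ℕ | 1 ≤ n ∧ n ≤ N ∧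
        ∃ H : ℕ, 1 ≤ H ∧ (H : ℝ) ≤ (N : ℝ) ^ θ ∧ ε * H < strays k (s * n) H}.ncard : ℝ) ≤ ε * N) ∧
    (∀ k : ℤ, k % 6 = 1 ∨ k % 6 = 5 → ∀ s : ℤ, s = 1 ∨ s = -1 → ∀ R : Set ℤ, (∀ x, x ∈ R ↔ T k x ∈ R) →
      ∃ ρ : ℝ, 0 ≤ ρ ∧ ρ ≤ 1 ∧ HasDensity (fun n => s * (n : ℤ) ∈ R) ρ ∧
        ((∃ a ∈ R, 0 < s * a ∧ ¬ (3 : ℤ) ∣ a) → 0 < ρ) ∧
        ∀ g : ℕ → ℕ, SubPower g → ∀ ε : ℝ, 0 < ε →
          HasDensity (fun n => s * (n : ℤ) ∈ R ∧
            ∀ H : ℕ, 1 ≤ H → H ≤ g n → (1 - ε) * H ≤ inside k R (s * n) H) ρ ∧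
          HasDensity (fun n => s * (n : ℤ) ∉ R ∧
            ∀ H : ℕ, 1 ≤ H → H ≤ g n → (inside k R (s * n) H : ℝ) ≤ ε * H) (1 - ρ)) ∧
    (∀ k : ℤ, k % 6 = 1 ∨ k % 6 = 5 → ∀ S : Set ℤ, (∀ s : ℤ, s = 1 ∨ s = -1 → Spread k s S) →
      (∀ c : ℤ, c ≠ 0 → Periodic k c → ∃ x ∈ S, x ∈ Basin k c) ∧
      ((∀ x ∈ S, EvPer k x) → ∀ x, EvPer k x) ∧
      ({c : ℤ | Periodic k c ∧ ∃ x ∈ S, x ∈ Basin k c}.Finite → {c : ℤ | Periodic k c}.Finite)) := by
  have hspread : ∀ k : ℤ, k % 6 = 1 ∨ k % 6 = 5 → ∀ S : Set ℤ, (∀ s : ℤ, s = 1 ∨ s = -1 → Spread k s S) →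
      ∀ a : ℤ, ¬ (3 : ℤ) ∣ a → ∃ x ∈ S, ∃ i : ℕ, (T k)^[i] x = a := by
    intro k hk S hS a ha
    have ha0 : a ≠ 0 := by rintro rfl; exact ha (dvd_zero _)
    obtain ⟨s, hs, hsa⟩ : ∃ s : ℤ, (s = 1 ∨ s = -1) ∧ 0 < s * a := by
      rcases lt_or_gt_of_ne ha0 with h | h
      · exact ⟨-1, Or.inr rfl, by omega⟩
      · exact ⟨1, Or.inl rfl, by omega⟩
    exact spread_hit (by omega) (by omega) ha hs hsa (hS s hs)
  have hcyc : ∀ k : ℤ, k % 6 = 1 ∨ k % 6 = 5 → ∀ S : Set ℤ, (∀ s : ℤ, s = 1 ∨ s = -1 → Spread k s S) →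
      ∀ c : ℤ, c ≠ 0 → Periodic k c → ∃ x ∈ S, x ∈ Basin k c := by
    rintro k hk S hS c hc0 ⟨p, hp, hpc⟩
    exact hspread k hk S hS c
      (Pool.Agent.H366R2.KGen.periodic_not_dvd (by omega) (by omega) hc0 hp hpc)
  refine ⟨?_, ?_, ?_, ?_, ?_⟩
  · obtain ⟨A, hA, h⟩ := apart_rate
    refine ⟨A, hA, fun k hk s hs N hN H κ hκ => le_trans ?_ (h k (Int.odd_iff.1 hk) s hs N hN H κ hκ)⟩
    exact_mod_cast Set.ncard_le_ncard (by
      rintro n ⟨h1, h2, h3⟩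
      exact ⟨h1, h2, h3.trans_le (by exact_mod_cast strays_le N _ H)⟩) (fin_le _ N)
  · intro ε hε
    obtain ⟨θ, hθ, N0, h⟩ := apart_window hε
    refine ⟨θ, hθ, N0, fun N hN k hk s hs H hH => le_trans ?_ (h N hN k (Int.odd_iff.1 hk) s hs H hH)⟩
    exact_mod_cast Set.ncard_le_ncard (by
      rintro n ⟨h1, h2, h3⟩
      exact ⟨h1, h2, h3.trans_le (by exact_mod_cast strays_le N _ H)⟩) (fin_le _ N)
  · intro k hk s hs ε hε
    obtain ⟨θ, hθ, N0, h⟩ := meet_max (d := k) (by omega) hs hε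
    refine ⟨θ, hθ, N0, fun N hN => le_trans ?_ (h N hN)⟩
    exact_mod_cast Set.ncard_le_ncard (by
      rintro n ⟨h1, h2, H, h3, h4, h5⟩
      refine ⟨h1, h2, H, h3, h4, h5.trans_le ?_⟩
      exact_mod_cast strays_le' _ H) (fin_le _ N)
  · intro k hk s hs R hR
    obtain ⟨ρ, h0, h1, h2, h3⟩ := dens_inv hk hs hR
    refine ⟨ρ, h0, h1, h2, h3, fun g hg ε hε => ?_⟩
    have hsc := meet_dens (d := k) (by omega) hs hg hε
    constructor
    · refine Pool.Agent.H499R2.CO.HD_congr hsc h2 (fun n _ hn => ⟨fun h5 => ⟨h5, fun H hH1 hH2 => ?_⟩,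
        fun h5 => h5.1⟩)
      have h6 := hn H hH1 hH2
      have hsub : ((Finset.Icc 1 H : Finset ℕ) : Set ℕ) ⊆
          {j : ℕ | 1 ≤ j ∧ j ≤ H ∧ s * (n : ℤ) + k * j ∈ R} ∪
          {j : ℕ | 1 ≤ j ∧ j ≤ H ∧ ¬ ∃ t : ℕ, (Pool.Agent.H499R2.CO.Tz k)^[t] (s * (n : ℤ)) =
            (Pool.Agent.H499R2.CO.Tz k)^[t] (s * (n : ℤ) + k * (j : ℤ))} := by
        intro j hj
        rw [Finset.coe_Icc] at hj
        by_cases h7 : ∃ t : ℕ, (Pool.Agent.H499R2.CO.Tz k)^[t] (s * (n : ℤ)) =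
            (Pool.Agent.H499R2.CO.Tz k)^[t] (s * (n : ℤ) + k * (j : ℤ))
        · left
          obtain ⟨t, ht⟩ := h7
          exact ⟨hj.1, hj.2, (inv_merge hR ht).1 h5⟩
        · exact Or.inr ⟨hj.1, hj.2, h7⟩
      have h8 := (Set.ncard_le_ncard hsub ((fin_le _ H).union (fin_le _ H))).trans (Set.ncard_union_le _ _)
      rw [Set.ncard_coe_finset, Nat.card_Icc, Nat.add_sub_cancel] at h8
      have h9 : (H : ℝ) ≤ (inside k R (s * n) H : ℝ) + (nomeet k (s * n) H : ℝ) := by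
        exact_mod_cast h8
      linarith
    · refine Pool.Agent.H499R2.CO.HD_congr hsc (Pool.Agent.H499R2.CO.HD_not h2)
        (fun n _ hn => ⟨fun h5 => ⟨h5, fun H hH1 hH2 => ?_⟩, fun h5 => h5.1⟩)
      have h6 := hn H hH1 hH2
      have h7 : inside k R (s * n) H ≤ nomeet k (s * n) H := by
        unfold inside nomeet
        apply Set.ncard_le_ncard
        · rintro j ⟨a1, a2, a3⟩
          refine ⟨a1, a2, ?_⟩
          rintro ⟨t, ht⟩
          exact h5 ((inv_merge hR ht).2 a3)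
        · exact fin_le _ H
      have h8 : (inside k R (s * n) H : ℝ) ≤ (nomeet k (s * n) H : ℝ) := by exact_mod_cast h7
      linarith
  · intro k hk S hS
    refine ⟨hcyc k hk S hS, ?_, ?_⟩
    · intro hall x
      by_cases hx : x = 0
      · subst hx
        exact ⟨0, 1, le_rfl, by simp [T]⟩
      · obtain ⟨i, hi⟩ := exists_prime3 (d := k) (by omega) (by omega) hx
        obtain ⟨y, hy, j, hj⟩ := hspread k hk S hS _ hi
        obtain ⟨m, p, hp, hm⟩ := hall y hy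
        refine ⟨m + i, p, hp, ?_⟩
        have h1 : ∀ q : ℕ, (T k)^[q + i] x = (T k)^[q + j] y := by
          intro q
          rw [Function.iterate_add_apply, Function.iterate_add_apply, hj]
          rfl
        have h2 : (T k)^[m + p + j] y = (T k)^[m + j] y := by
          rw [Nat.add_comm (m + p) j, Nat.add_comm m j, Function.iterate_add_apply (T k) j (m + p),
            Function.iterate_add_apply (T k) j m, hm]
        rw [show m + i + p = (m + p) + i by ring, h1, h1, h2]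
    · intro hfin
      apply (hfin.insert 0).subset
      intro c hc
      by_cases h0 : c = 0
      · exact Or.inl h0
      · exact Or.inr ⟨hc, hcyc k hk S hS c h0 hc⟩

end Pool.Agent.Results.MP_7f88e4_nt.SolidFates
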